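import Pool.Agent.SCD27.Asm4
import Pool.Agent.SCD27.Rep
import Pool.Agent.SCD27.C1

/-!
MP_286faa_nt: the supercongruence for `S_p = ∑_{k<p} (6k)! / ((-12288000)^k (3k)! (k!)^3)` modulo `p^2`,
for every prime `p > 5` (full statement).
-/

namespace Pool.Agent.Results.MP_286faa_nt.SunD27

open Finset

/-- `S_p = ∑_{k<p} (6k)! / ((-12288000)^k (3k)! (k!)^3)` -/
def S (p : ℕ) : ℚ :=
  ∑ k ∈ range p, ((6 * k).factorial : ℚ) / ((-12288000) ^ k * ((3 * k).factorial : ℚ) * (k.factorial : ℚ) ^ 3)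

/-- `x ≡ y (mod p^m)` for rationals: `x - y = p^m a / b` with integers `a`, `b`, `p ∤ b` -/
def Cong (p m : ℕ) (x y : ℚ) : Prop :=
  ∃ a b : ℤ, ¬ (p : ℤ) ∣ b ∧ (x - y) * b = (p : ℚ) ^ m * a

open SC24 SCD27 SCD27A

/-- **Main theorem**: both congruences of the problem, for every prime `p > 5`
(with the existence of the representation `4p = L^2 + 27 M^2` for `p ≡ 1 mod 3`). -/
theorem result (p : ℕ) [Fact p.Prime] (hp : 5 < p) :
    (p % 3 = 1 →
      (∃ L M : ℤ, 4 * (p : ℤ) = L ^ 2 + 27 * M ^ 2) ∧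
      ∀ L M : ℤ, 4 * (p : ℤ) = L ^ 2 + 27 * M ^ 2 →
        Cong p 2 (S p) ((legendreSym p 10 : ℚ) * ((L : ℚ) ^ 2 - 2 * p))) ∧
    (p % 3 = 2 → Cong p 2 (S p) 0) := by
  have hodd := odd_p hp
  rw [Nat.odd_iff] at hodd
  have hS : Red p (p ^ (2:ℕ)) (S p) (SS p 0) := Sp_red hp
  refine ⟨fun h1 => ⟨exists_rep (m := (p - 1) / 3) (by omega), fun L M hLM => ?_⟩, fun h2 => ?_⟩
  · have hn : 6 * (p / 6) + 1 = p := by omega
    have h3 : (Phi p 0 0 0) ^ 2 = (L : ZMod (p ^ (2:ℕ))) ^ 2 - 2 * (p : ZMod (p ^ (2:ℕ))) := by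
      rw [Phi_zero hp, C1 hn (X1_red hp hn) (X2_red hp hn)]
      have := choose_sq (m := 2 * (p / 6)) (by omega) hLM
      rw [show 2 * (2 * (p / 6)) = 4 * (p / 6) by ring] at this
      exact this
    rw [SS_split hp hn, h3] at hS
    refine Red.pcong rfl hS ?_
    have := (Red.int (p := p) (M := p ^ (2:ℕ)) (legendreSym p 10)).mul
      (((Red.int (p := p) (M := p ^ (2:ℕ)) L).pow 2).sub
        ((Red.nat (p := p) (M := p ^ (2:ℕ)) 2).mul (Red.nat (p := p) (M := p ^ (2:ℕ)) p)))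
    exact_mod_cast this
  · have hn : 6 * (p / 6) + 5 = p := by omega
    rw [SS_inert hp hn] at hS
    exact Red.pcong rfl hS Red.zero

end Pool.Agent.Results.MP_286faa_nt.SunD27
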